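import Mathlib
import Pool.Agent.H208Z.WhyDefs
import Pool.Agent.H208Z.WhyTree

set_option autoImplicit false

namespace Pool.Agent.Results.MP_c7df87_gt.ACountableWhyburn

open Pool.Agent.H208Z.Why

/-- There is a countable Tychonoff Whyburn space (so separable and d-separable) that is not
D-separable. -/
theorem result : ∃ (X : Type) (_ : TopologicalSpace X), Countable X ∧ T35Space X ∧
    Whyburn X ∧ TopologicalSpace.SeparableSpace X ∧ SmallDSeparable X ∧ ¬ DSeparable X :=
  exists_example

end Pool.Agent.Results.MP_c7df87_gt.ACountableWhyburn
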